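import Pool.Agent.Y985.ME.Stm
import Pool.Agent.H984R4.NP.Det

/-!
# Project ME (helper985): slow pieces of the exploration path near good blocks
-/

set_option autoImplicit false

namespace Pool.Agent.Y655.ME

open H974 Finset H342P H984P H984N Pool.Agent.Y985.ME

/-- A fast piece of the path in the bulk is a fast piece in a square. -/
theorem bulk_loc {D : Dm} {R L : ℤ} {M : ℕ} (hR : 1 ≤ R) (hRL : 3 * R ≤ L)
    {F : Finset Edg} {k l0 : ℕ} (hkl : k ≤ l0) (hbd : 4 * L ≤ D.bd (D.walk F k).1)
    (hfar : Far (D.walk F k).1 R (D.walk F l0).1) (hlM : l0 - k < M) :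
    bulk_sq M R L (L * ((D.walk F k).1.1 / L) - 2 * L) (L * ((D.walk F k).1.2 / L) - 2 * L) F := by
  classical
  have hL : 0 < L := by omega
  set v := (D.walk F k).1 with hv
  unfold Dm.bd at hbd
  rw [le_min_iff, le_min_iff, le_min_iff] at hbd
  obtain ⟨⟨b1, b2⟩, b3, b4⟩ := hbd
  have q1 : L * (v.1 / L) ≤ v.1 := Int.mul_ediv_self_le hL.ne'
  have q2 : v.1 < L * (v.1 / L) + L := Int.lt_mul_ediv_self_add hL
  have q3 : L * (v.2 / L) ≤ v.2 := Int.mul_ediv_self_le hL.ne'
  have q4 : v.2 < L * (v.2 / L) + L := Int.lt_mul_ediv_self_add hL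
  set b := L * (v.1 / L) - 2 * L with hb
  set c := L * (v.2 / L) - 2 * L with hc
  have hex : ∃ t, Far v R (orb (D.cfg F) (D.walk F k) t).1 := by
    refine ⟨l0 - k, ?_⟩
    rw [← bulk_walk, Nat.add_sub_cancel' hkl]
    exact hfar
  have ht0 : Nat.find hex ≤ l0 - k := by
    apply Nat.find_min' hex
    rw [← bulk_walk, Nat.add_sub_cancel' hkl]
    exact hfar
  have hcong : orb (↑(F ∩ RE b (b + 4 * L) c (c + 4 * L)) : Set Edg) (D.walk F k)
      (Nat.find hex) = orb (D.cfg F) (D.walk F k) (Nat.find hex) := by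
    refine orb_congr (T := Nat.find hex) ?_ le_rfl
    intro e he
    rw [mem_Exm] at he
    obtain ⟨s, hs, rfl⟩ := he
    have hnf := Nat.find_min hex hs
    generalize orb (D.cfg F) (D.walk F k) s = w at hnf ⊢
    unfold Far at hnf
    push Not at hnf
    have hin : ae w ∈ RE b (b + 4 * L) c (c + 4 * L) := by
      obtain ⟨⟨x, y⟩, q⟩ := w
      cases q
      · rw [ae_ne, mem_RE_true]; simp only at hnf; omega
      · rw [ae_nw, mem_RE_false]; simp only at hnf; omega
      · rw [ae_sw, mem_RE_true]; simp only at hnf; omega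
      · rw [ae_se, mem_RE_false]; simp only at hnf; omega
    have hnw : ae w ∉ D.wir := by
      intro hw
      unfold Dm.wir at hw
      obtain ⟨⟨x, y⟩, q⟩ := w
      simp only at hnf
      cases q
      · rw [ae_ne] at hw
        rcases hw with ⟨-, h2, -⟩ | ⟨h1, -⟩ | ⟨-, h2, -⟩
        · simp only at h2; omega
        · simp at h1
        · simp only at h2; omega
      · rw [ae_nw] at hw
        rcases hw with ⟨h1, -⟩ | ⟨-, h2, -⟩ | ⟨h1, -⟩
        · simp at h1
        · simp only at h2; omega
        · simp at h1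
      · rw [ae_sw] at hw
        rcases hw with ⟨-, h2, -⟩ | ⟨h1, -⟩ | ⟨-, h2, -⟩
        · simp only at h2; omega
        · simp at h1
        · simp only at h2; omega
      · rw [ae_se] at hw
        rcases hw with ⟨h1, -⟩ | ⟨-, h2, -⟩ | ⟨h1, -⟩
        · simp at h1
        · simp only at h2; omega
        · simp at h1
    unfold Dm.cfg
    rw [Finset.coe_inter]
    constructor
    · rintro (h | h)
      · exact ⟨h, hin⟩
      · exact absurd h hnw
    · rintro ⟨h, -⟩
      exact Or.inl h
  refine ⟨D.walk F k, Nat.find hex, ?_, ?_, by omega⟩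
  · unfold inR
    rw [← hv]
    omega
  · rw [hcong, ← hv]
    exact Nat.find_spec hex

theorem mem_RE_ends {a b c d : ℤ} {e : Edg} (h1 : inR a b c d (src e)) (h2 : inR a b c d (tgt e)) :
    e ∈ RE a b c d := by
  obtain ⟨x, y, _ | _⟩ := e
  · simp only [inR, src_mk, tgt_false] at h1 h2
    rw [mem_RE_false]
    omega
  · simp only [inR, src_mk, tgt_true] at h1 h2
    rw [mem_RE_true]
    omega

theorem ends_of_RE {a b c d : ℤ} {e : Edg} (h : e ∈ RE a b c d) :
    inR a b c d (src e) ∧ inR a b c d (tgt e) := by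
  obtain ⟨x, y, _ | _⟩ := e
  · rw [mem_RE_false] at h
    simp only [inR, src_mk, tgt_false]
    omega
  · rw [mem_RE_true] at h
    simp only [inR, src_mk, tgt_true]
    omega

/-- The vertices of the blocks next to `q`. -/
theorem near_blk {W : ℤ} (hW : 1 ≤ W) {q v : Vtx} (h : sd (blk W v) q ≤ 1) :
    q.1 * W - W ≤ v.1 ∧ v.1 < q.1 * W + 2 * W ∧ q.2 * W - W ≤ v.2 ∧ v.2 < q.2 * W + 2 * W := by
  have a1 : W * (v.1 / W) ≤ v.1 := Int.mul_ediv_self_le (by omega)
  have a2 : v.1 < W * (v.1 / W) + W := Int.lt_mul_ediv_self_add (by omega)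
  have b1 : W * (v.2 / W) ≤ v.2 := Int.mul_ediv_self_le (by omega)
  have b2 : v.2 < W * (v.2 / W) + W := Int.lt_mul_ediv_self_add (by omega)
  rw [det_sd_eq] at h
  unfold blk at h
  simp only at h
  have key : ∀ x y : ℤ, x ≤ y + 1 → W * x ≤ y * W + W := by
    intro x y hxy
    have := mul_le_mul_of_nonneg_left hxy (show 0 ≤ W by omega)
    linarith [mul_comm W y, mul_add W y 1]
  have key2 : ∀ x y : ℤ, y - 1 ≤ x → y * W - W ≤ W * x := by
    intro x y hxy
    have := mul_le_mul_of_nonneg_left hxy (show 0 ≤ W by omega)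
    linarith [mul_comm W y, mul_sub W y 1]
  have c1 := key (v.1 / W) q.1 (by omega)
  have c2 := key (v.2 / W) q.2 (by omega)
  have c3 := key2 (v.1 / W) q.1 (by omega)
  have c4 := key2 (v.2 / W) q.2 (by omega)
  omega

/-- A fast piece with a vertex in the bulk. -/
theorem bad_bulk {D : Dm} {W R L : ℤ} {M : ℕ} (hR : 1 ≤ R) (hRL : 3 * R ≤ L) {q : Vtx}
    {F : Finset Edg} {k l : ℕ} (hkl : k ≤ l) (hlM : l - k < M)
    (hin : q.1 * W - W ≤ (D.walk F k).1.1 ∧ (D.walk F k).1.1 < q.1 * W + 2 * W ∧
      q.2 * W - W ≤ (D.walk F k).1.2 ∧ (D.walk F k).1.2 < q.2 * W + 2 * W)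
    (hbd : 4 * L ≤ D.bd (D.walk F k).1) (hf : R ≤ sd (D.walk F k).1 (D.walk F l).1) :
    BadB M R L W D q F := by
  have hL : 0 < L := by omega
  have hb := bulk_loc (D := D) (M := M) hR hRL hkl hbd (det_far hf) hlM
  have q1 : L * ((D.walk F k).1.1 / L) ≤ (D.walk F k).1.1 := Int.mul_ediv_self_le hL.ne'
  have q2 : (D.walk F k).1.1 < L * ((D.walk F k).1.1 / L) + L := Int.lt_mul_ediv_self_add hL
  have q3 : L * ((D.walk F k).1.2 / L) ≤ (D.walk F k).1.2 := Int.mul_ediv_self_le hL.ne'
  have q4 : (D.walk F k).1.2 < L * ((D.walk F k).1.2 / L) + L := Int.lt_mul_ediv_self_add hL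
  unfold Dm.bd at hbd
  rw [le_min_iff, le_min_iff, le_min_iff] at hbd
  obtain ⟨⟨b1, b2⟩, b3, b4⟩ := hbd
  obtain ⟨x1, x2, x3, x4⟩ := hin
  refine ⟨(D.walk F k).1.1 / L, (D.walk F k).1.2 / L, ⟨?_, ?_⟩, ⟨?_, ?_⟩, ⟨?_, ?_⟩, ⟨?_, ?_⟩, hb⟩ <;>
    linarith

/-- The local rectangle. -/
theorem in_loc {D : Dm} {W ρ : ℤ} {q v : Vtx} (h0 : inR D.l D.r 0 D.h v)
    (h1 : q.1 * W - 2 * W ≤ v.1) (h2 : v.1 ≤ q.1 * W + 3 * W) (h3 : q.2 * W - 2 * W ≤ v.2)
    (h4 : v.2 ≤ q.2 * W + 3 * W) (hb : D.bd v < ρ) :
    inR (max D.l (q.1 * W - 2 * W)) (min D.r (q.1 * W + 3 * W))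
      (max 0 (q.2 * W - 2 * W)) (min D.h (q.2 * W + 3 * W)) v ∧
    bdr (max D.l (q.1 * W - 2 * W)) (min D.r (q.1 * W + 3 * W))
      (max 0 (q.2 * W - 2 * W)) (min D.h (q.2 * W + 3 * W)) v < ρ := by
  unfold inR at h0
  unfold Dm.bd at hb
  unfold inR bdr
  omega

/-- A piece near the boundary. -/
theorem bad_bdry {D : Dm} (hD : D.Ok) {W L w : ℤ} (hL : 1 ≤ L) (hw : 5 * L + 4 ≤ w)
    (hWw : 4 * w + 1 ≤ W) {q : Vtx} (hl : 8 * W ≤ -D.l) (hr : 8 * W ≤ D.r) (hh : 8 * W ≤ D.h)
    {F : Finset Edg} (hF : F ⊆ D.edges) {k l : ℕ} (hkl : k ≤ l) (hl' : l ≤ D.len F)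
    (hin : ∀ s, k ≤ s → s ≤ l → (q.1 * W - W ≤ (D.walk F s).1.1 ∧
      (D.walk F s).1.1 < q.1 * W + 2 * W ∧ q.2 * W - W ≤ (D.walk F s).1.2 ∧
      (D.walk F s).1.2 < q.2 * W + 2 * W) ∧ D.bd (D.walk F s).1 < 5 * L)
    (hd : W ≤ sd (D.walk F k).1 (D.walk F l).1) : BadP L w W D q F ∨ BadD L w W D q F := by
  obtain ⟨i, j, hki, hij, hjl, hwij, hs⟩ := det_sub (fun s => (D.walk F s).1)
    (fun s => walk_step D F s) (w := w) (by omega) (D.t, D.h) (0, 0)
    (by rw [det_sd_eq]; simp only; omega) hkl (by omega)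
  have hnear : ∀ s, k ≤ s → s ≤ l → D.bd (D.walk F s).1 < 5 * L := fun s h1 h2 => (hin s h1 h2).2
  have hor : ∀ s, i ≤ s → s ≤ j → detFr D (5 * L) w (D.walk F s).1 ∨
      detWi D (5 * L) w (D.walk F s).1 :=
    fun s h1 h2 => det_or (by omega) (walk_in hD hF s) (hnear s (by omega) (by omega))
      (hs s h1 h2).1 (hs s h1 h2).2
  have hl8 : 8 * w ≤ -D.l := by omega
  have hr8 : 8 * w ≤ D.r := by omega
  have hh8 : 8 * w ≤ D.h := by omega
  rcases hor i le_rfl hij with h0 | h0
  · -- free side
    left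
    have hall : ∀ n, i + n ≤ j → detFr D (5 * L) w (D.walk F (i + n)).1 := by
      intro n
      induction n with
      | zero => intro _; exact h0
      | succ n ih =>
        intro hn
        rcases hor (i + (n + 1)) (by omega) hn with h | h
        · exact h
        · exact (det_disj hD (by omega) (by omega) hl8 hr8 hh8 (ih (by omega)) h
            (walk_step D F (i + n))).elim
    refine ⟨(D.walk F i).1, (D.walk F j).1, hwij, ?_⟩
    have hreach : ∀ n, i + n ≤ j →
        Reach (↑(F ∩ Lam D W q) ∩ Lay D W (5 * L + 2) q : Set Edg)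
        (D.walk F i).1 (D.walk F (i + n)).1 := by
      intro n
      induction n with
      | zero => intro _; exact Reach.refl _ _
      | succ n ih =>
        intro hn
        have ih' := ih (by omega)
        have hsucc : D.walk F (i + (n + 1)) = nxt (D.cfg F) (D.walk F (i + n)) :=
          walk_succ D F (i + n)
        by_cases hop : ae (D.walk F (i + n)) ∈ D.cfg F
        · have hnx : D.walk F (i + (n + 1)) = mv (D.walk F (i + n)) := by
            rw [hsucc, nxt_open hop]
          have hfr1 := hall n (by omega)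
          have hfr2 := hall (n + 1) hn
          have ha1 := (hs (i + n) (by omega) (by omega)).1
          have ha2 := (hs (i + (n + 1)) (by omega) hn).1
          have hb1 := hin (i + n) (by omega) (by omega)
          have hb2 := hin (i + (n + 1)) (by omega) (by omega)
          have hc1 := walk_in hD hF (i + n)
          have hc2 := walk_in hD hF (i + (n + 1))
          rw [hnx] at hfr2 ha2 hb2 hc2
          have hends := p2_ends (D.walk F (i + n))
          have hFr : detFr D (5 * L) w (src (ae (D.walk F (i + n)))) ∧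
              w < sd (src (ae (D.walk F (i + n)))) (D.t, D.h) := by
            rcases hends with ⟨h1, h2⟩ | ⟨h1, h2⟩
            · rw [h1]; exact ⟨hfr1, ha1⟩
            · rw [h1]; exact ⟨hfr2, ha2⟩
          have hQ : ∀ v : Vtx, v = (D.walk F (i + n)).1 ∨ v = (mv (D.walk F (i + n))).1 →
              inR (max D.l (q.1 * W - 2 * W)) (min D.r (q.1 * W + 3 * W))
                (max 0 (q.2 * W - 2 * W)) (min D.h (q.2 * W + 3 * W)) v ∧
              bdr (max D.l (q.1 * W - 2 * W)) (min D.r (q.1 * W + 3 * W))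
                (max 0 (q.2 * W - 2 * W)) (min D.h (q.2 * W + 3 * W)) v < 5 * L + 2 := by
            intro v hv
            rcases hv with rfl | rfl
            · obtain ⟨⟨t1, t2, t3, t4⟩, t5⟩ := hb1
              exact in_loc hc1 (by omega) (by omega) (by omega) (by omega) (by omega)
            · obtain ⟨⟨t1, t2, t3, t4⟩, t5⟩ := hb2
              exact in_loc hc2 (by omega) (by omega) (by omega) (by omega) (by omega)
          have q1 := hQ (src (ae (D.walk F (i + n)))) (by
            rcases hends with ⟨t1, t2⟩ | ⟨t1, t2⟩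
            · exact Or.inl t1
            · exact Or.inr t1)
          have q2 := hQ (tgt (ae (D.walk F (i + n)))) (by
            rcases hends with ⟨t1, t2⟩ | ⟨t1, t2⟩
            · exact Or.inr t2
            · exact Or.inl t2)
          have hnw := det_nwir hD (by omega) (by omega) hl8 hr8 hh8 hFr.1 hFr.2
          have hinF : ae (D.walk F (i + n)) ∈ F := by
            rcases hop with h | h
            · exact h
            · exact absurd h hnw
          refine ih'.trans (Adj.reach ⟨ae (D.walk F (i + n)), ⟨?_, q1.2, q2.2⟩, ?_⟩)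
          · rw [Finset.coe_inter]
            exact ⟨hinF, mem_RE_ends q1.1 q2.1⟩
          · rw [hnx]
            exact hends
        · rw [hsucc, nxt_closed hop, p2_rt_fst]
          exact ih'
    have h1 := hreach (j - i) (by omega)
    rwa [show i + (j - i) = j by omega] at h1
  · -- wired side
    right
    have hall : ∀ n, i + n ≤ j → detWi D (5 * L) w (D.walk F (i + n)).1 := by
      intro n
      induction n with
      | zero => intro _; exact h0
      | succ n ih =>
        intro hn
        rcases hor (i + (n + 1)) (by omega) hn with h | h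
        · exact (det_disj hD (by omega) (by omega) hl8 hr8 hh8 h (ih (by omega))
            (by rw [det_sd_comm]; exact walk_step D F (i + n))).elim
        · exact h
    refine ⟨face (D.walk F i), face (D.walk F j), ?_, ?_⟩
    · have := det_face (D.walk F i) (D.walk F j)
      omega
    have hreach : ∀ n, i + n ≤ j →
        DReach ((↑(Lam D W q) ∩ Lay D W (5 * L + 2) q) \ ↑F : Set Edg)
        (face (D.walk F i)) (face (D.walk F (i + n))) := by
      intro n
      induction n with
      | zero => intro _; exact DReach.refl _ _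
      | succ n ih =>
        intro hn
        have ih' := ih (by omega)
        have hsucc : D.walk F (i + (n + 1)) = nxt (D.cfg F) (D.walk F (i + n)) :=
          walk_succ D F (i + n)
        by_cases hop : ae (D.walk F (i + n)) ∈ D.cfg F
        · rw [hsucc, nxt_open hop, p2_face_mv]
          exact ih'
        · have hwi := hall n (by omega)
          have ha1 := (hs (i + n) (by omega) (by omega)).1
          have hb1 := hin (i + n) (by omega) (by omega)
          have hno := det_nouter hD (by omega) (by omega) hl8 hr8 hh8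
            (walk_in hD hF (i + n)) hwi ha1
          have hedge : ae (D.walk F (i + n)) ∈ D.edges := by
            rcases walk_closed hD hF (k := i + n) (by omega) hop with h | h
            · exact h
            · exact absurd h hno
          have hnF : ae (D.walk F (i + n)) ∉ (↑F : Set Edg) := fun h => hop (Or.inl h)
          have hmv := det_mv (D.walk F (i + n))
          have hends := p2_ends (D.walk F (i + n))
          obtain ⟨g1, g2⟩ := ends_of_RE (a := D.l) (b := D.r) (c := 0) (d := D.h) hedge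
          have hQ : ∀ v : Vtx, inR D.l D.r 0 D.h v →
              v = (D.walk F (i + n)).1 ∨ v = (mv (D.walk F (i + n))).1 →
              inR (max D.l (q.1 * W - 2 * W)) (min D.r (q.1 * W + 3 * W))
                (max 0 (q.2 * W - 2 * W)) (min D.h (q.2 * W + 3 * W)) v ∧
              bdr (max D.l (q.1 * W - 2 * W)) (min D.r (q.1 * W + 3 * W))
                (max 0 (q.2 * W - 2 * W)) (min D.h (q.2 * W + 3 * W)) v < 5 * L + 2 := by
            intro v hv0 hv
            obtain ⟨⟨t1, t2, t3, t4⟩, t5⟩ := hb1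
            rcases hv with rfl | rfl
            · exact in_loc hv0 (by omega) (by omega) (by omega) (by omega) (by omega)
            · have hlip := det_bd_lip D (mv (D.walk F (i + n))).1 (D.walk F (i + n)).1
              have hb3 : D.bd (mv (D.walk F (i + n))).1 < 5 * L + 2 := by omega
              rw [det_sd_eq] at hmv
              exact in_loc hv0 (by omega) (by omega) (by omega) (by omega) hb3
          have q1 := hQ (src (ae (D.walk F (i + n)))) g1 (by
            rcases hends with ⟨t1, t2⟩ | ⟨t1, t2⟩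
            · exact Or.inl t1
            · exact Or.inr t1)
          have q2 := hQ (tgt (ae (D.walk F (i + n)))) g2 (by
            rcases hends with ⟨t1, t2⟩ | ⟨t1, t2⟩
            · exact Or.inr t2
            · exact Or.inl t2)
          rw [hsucc, nxt_closed hop]
          refine ih'.trans (DAdj.reach ⟨ae (D.walk F (i + n)), ⟨⟨?_, q1.2, q2.2⟩, hnF⟩, ?_⟩)
          · exact Finset.mem_coe.mpr (mem_RE_ends q1.1 q2.1)
          · exact p2_dends _
    have h1 := hreach (j - i) (by omega)
    rwa [show i + (j - i) = j by omega] at h1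

theorem slow : S_SLOW := by
  intro D M R L w W q F hD hPar hl hr hh hF hB k l hkl hl' hin hd
  obtain ⟨hR, hRL, hw, hWw⟩ := hPar
  by_contra hM
  have hM' : l - k < M := by omega
  apply hB
  have hW1 : 1 ≤ W := by omega
  have hin' := fun s h1 h2 => near_blk hW1 (hin s h1 h2)
  by_cases hbulk : ∃ m, k ≤ m ∧ m ≤ l ∧ 5 * L ≤ D.bd (D.walk F m).1
  · left
    obtain ⟨m, hkm, hml, hy⟩ := hbulk
    have htri := det_sd_tri (D.walk F k).1 (D.walk F m).1 (D.walk F l).1
    by_cases hf : R ≤ sd (D.walk F m).1 (D.walk F l).1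
    · exact bad_bulk hR hRL hml (by omega) (hin' m hkm hml) (by omega) hf
    · have h5 : R ≤ sd (D.walk F m).1 (D.walk F k).1 := by
        rw [det_sd_comm]
        omega
      obtain ⟨i, hki, him, hRi, hs⟩ := det_last (fun s => (D.walk F s).1)
        (fun s => walk_step D F s) hkm h5
      have h6 := hs i le_rfl him
      have h7 := det_bd_lip D (D.walk F m).1 (D.walk F i).1
      refine bad_bulk hR hRL him (by omega) (hin' i hki (by omega)) ?_
        (by rw [det_sd_comm]; exact hRi)
      omega
  · right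
    push Not at hbulk
    exact bad_bdry hD (by omega) hw hWw hl hr hh hF hkl hl'
      (fun s t1 t2 => ⟨hin' s t1 t2, hbulk s t1 t2⟩) hd

end Pool.Agent.Y655.ME
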